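import Mathlib
import Pool.Agent.Q127.SD.F
import Pool.Agent.Q132.TS.G

/-!
# Property (S): Toeplitz sequences, or the smooth diffeomorphisms of one manifold, suffice

For every bounded `χ : ℤ → ℂ` the following are equivalent:

* property (S): the averages `(1 / N) ∑_{1 ≤ n ≤ N} χ(n) Φ(T^n x)` tend to `0` for all systems of zero entropy;
* the same for the minimal systems of zero entropy;
* the strong form in short intervals, with a new point in each interval;
* the orthogonality of `χ` to the Toeplitz sequences of zeros and ones of zero entropy, with periods powers of two,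
  which vanish outside one residue class modulo `2 ^ j` (`j` fixed);
* the case of the `C^∞` diffeomorphisms of zero entropy of one fixed compact manifold of dimension `d ≥ 3` which are the
  identity outside a fixed nonempty open set, with real `C^∞` observables.
-/

set_option autoImplicit false

namespace Pool.Agent.Results.MP_8c12e3_nt.ToeplitzOrSmoothSuffice

open Finset Filter Topology Dynamics
open scoped Manifold ContDiff

/-- `χ` is multiplicative: `χ(mn) = χ(m) χ(n)` for coprime integers `m`, `n` -/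
def Multiplicative (χ : ℤ → ℂ) : Prop := ∀ m n : ℤ, IsCoprime m n → χ (m * n) = χ m * χ n

/-- the means of `χ` along all nonconstant arithmetic progressions are `0` -/
def Aperiodic (χ : ℤ → ℂ) : Prop := ∀ a b : ℤ, a ≠ 0 →
  Tendsto (fun N : ℕ => (1 / (N : ℂ)) * ∑ n ∈ range N, χ (a * n + b)) atTop (𝓝 0)

/-- the class `M^a`: aperiodic multiplicative functions bounded by `1` -/
def InMa (χ : ℤ → ℂ) : Prop := Multiplicative χ ∧ Aperiodic χ ∧ ∀ n, ‖χ n‖ ≤ 1

/-- `(1 / N) ∑_{1 ≤ n ≤ N} χ(n) a(n)` tends to `0` -/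
def Orthogonal (χ : ℤ → ℂ) (a : ℕ → ℂ) : Prop :=
  Tendsto (fun N : ℕ => (1 / (N : ℂ)) * ∑ n ∈ Icc 1 N, χ n * a n) atTop (𝓝 0)

/-- property (S) -/
def PropertyS (χ : ℤ → ℂ) : Prop :=
  ∀ (X : Type) [MetricSpace X] [CompactSpace X] (T : X → X), Continuous T →
    coverEntropy T Set.univ = 0 → ∀ (F : C(X, ℂ)) (x : X), Orthogonal χ (fun n => F (T^[n] x))

/-- property (S) for the systems all of whose forward orbits are dense -/
def PropertySMinimal (χ : ℤ → ℂ) : Prop :=
  ∀ (X : Type) [MetricSpace X] [CompactSpace X] (T : X → X), Continuous T →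
    coverEntropy T Set.univ = 0 → (∀ y, Dense (Set.range (fun n => T^[n] y))) →
    ∀ (F : C(X, ℂ)) (x : X), Orthogonal χ (fun n => F (T^[n] x))

/-- the strong form: the integers are cut into intervals whose lengths tend to infinity, and in every interval
the orbit of a new point is followed -/
def PropertySStrong (χ : ℤ → ℂ) : Prop :=
  ∀ (X : Type) [MetricSpace X] [CompactSpace X] (T : X → X), Continuous T →
    coverEntropy T Set.univ = 0 → ∀ (F : C(X, ℂ)) (b : ℕ → ℕ), StrictMono b →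
    Tendsto (fun k => b (k + 1) - b k) atTop atTop → ∀ x : ℕ → X,
    Tendsto (fun K => (1 / (b K : ℝ)) *
      ∑ k ∈ range K, ‖∑ n ∈ Ioc (b k) (b (k + 1)), χ n * F (T^[n] (x k))‖) atTop (𝓝 0)

/-- `b` is a Toeplitz sequence (every place lies on an arithmetic progression on which `b` is constant) and all
the periods can be taken to be powers of two. -/
def Toeplitz (b : ℕ → Bool) : Prop := ∀ n, ∃ j, ∀ m, b (n + m * 2 ^ j) = b n

/-- the number of different words of length `L` of `b` -/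
noncomputable def complexity (b : ℕ → Bool) (L : ℕ) : ℕ :=
  (Set.range (fun n => fun i : Fin L => b (n + i))).ncard

/-- `log (complexity b L) = o(L)` -/
def ZeroEntropy (b : ℕ → Bool) : Prop :=
  Tendsto (fun L : ℕ => Real.log (complexity b L) / L) atTop (𝓝 0)

/-- `χ` is orthogonal to the Toeplitz sequences of zeros and ones of zero entropy, with periods powers of two, which
vanish outside one residue class modulo `2 ^ j`. -/
def ToeplitzOrthogonal (j : ℕ) (χ : ℤ → ℂ) : Prop :=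
  ∀ b : ℕ → Bool, Toeplitz b → ZeroEntropy b → (∃ r, ∀ n, b n = true → n % 2 ^ j = r) →
    Orthogonal χ (fun n => if b n then 1 else 0)

/-- property (S) for the `C^∞` diffeomorphisms of the manifold `M` which are the identity outside `U` and for the real
`C^∞` functions on `M` -/
def PropertySFor (d : ℕ) (M : Type) [MetricSpace M] [ChartedSpace (EuclideanSpace ℝ (Fin d)) M] (U : Set M)
    (χ : ℤ → ℂ) : Prop :=
  ∀ h : Diffeomorph (𝓡 d) (𝓡 d) M M ∞, (∀ m, m ∉ U → h m = m) → coverEntropy h Set.univ = 0 →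
    ∀ F : M → ℝ, ContMDiff (𝓡 d) 𝓘(ℝ, ℝ) ∞ F → ∀ m : M, Orthogonal χ (fun n => ((F (h^[n] m) : ℝ) : ℂ))

/-- the functions of the class `M^a` with property (S), the object of Q1 -/
def SetS : Set (ℤ → ℂ) := {χ | InMa χ ∧ PropertyS χ}

lemma main {χ : ℤ → ℂ} (hχ : ∃ B : ℝ, ∀ n, ‖χ n‖ ≤ B) :
    (PropertyS χ ↔ PropertySMinimal χ) ∧ (PropertyS χ ↔ PropertySStrong χ) ∧
    (∀ j : ℕ, PropertyS χ ↔ ToeplitzOrthogonal j χ) ∧
    ∀ d : ℕ, 3 ≤ d → ∀ (M : Type) [MetricSpace M] [CompactSpace M] [ChartedSpace (EuclideanSpace ℝ (Fin d)) M]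
      [IsManifold (𝓡 d) ∞ M] (U : Set M), IsOpen U → U.Nonempty → (PropertyS χ ↔ PropertySFor d M U χ) := by
  obtain ⟨B, hB⟩ := hχ
  set u : ℕ → ℂ := fun n => χ n with hu
  have hκ : Pool.Agent.Q132.TS.Good (fun N n => u n / (((N : ℕ) : ℝ) : ℂ)) :=
    Pool.Agent.Q132.TS.good_cesaro' (fun n => hB n)
  have conv : ∀ g : ℕ → ℂ, Tendsto (Pool.Agent.Q132.TS.Av (fun N n => u n / (((N : ℕ) : ℝ) : ℂ)) g) atTop (𝓝 0) ↔
      Orthogonal χ g := by
    intro g
    apply tendsto_congr
    intro N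
    rw [Pool.Agent.Q132.TS.cesaro_conv]
    congr 1
    exact sum_congr rfl (fun n _ => mul_comm _ _)
  have e1 : Pool.Agent.Q132.TS.Sar (fun N n => u n / (((N : ℕ) : ℝ) : ℂ)) False ↔ PropertyS χ := by
    constructor
    · intro H X _ _ T hT hE f x
      exact (conv _).1 (H X T hT hE (fun h => h.elim) f x)
    · intro H X _ _ T hT hE _ f x
      exact (conv _).2 (H X T hT hE f x)
  have e2 : Pool.Agent.Q132.TS.Sar (fun N n => u n / (((N : ℕ) : ℝ) : ℂ)) True ↔ PropertySMinimal χ := by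
    constructor
    · intro H X _ _ T hT hE hd f x
      exact (conv _).1 (H X T hT hE (fun _ => hd) f x)
    · intro H X _ _ T hT hE hd f x
      exact (conv _).2 (H X T hT hE (hd trivial) f x)
  have e3 : Pool.Agent.Q132.TS.Strong u (fun N : ℕ => (N : ℝ)) ↔ PropertySStrong χ := by
    constructor
    · intro H X _ _ T hT hE f b hb hg x
      exact (H X T hT hE f b hb hg x)
    · intro H X _ _ T hT hE f b hb hg x
      exact (H X T hT hE f b hb hg x)
  have all := fun j => Pool.Agent.Q132.TS.all_equiv (w := u) (Z := fun N : ℕ => (N : ℝ))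
      (fun N => Nat.cast_nonneg N) tendsto_natCast_atTop_atTop hκ j
  refine ⟨?_, ?_, fun j => ?_, fun d hd M _ _ _ _ U hU hUn => ?_⟩
  · rw [← e1, ← e2]; exact (all 0).1
  · rw [← e1, ← e3]; exact (all 0).2.1
  · rw [← e1]
    refine (all j).2.2.1.trans ?_
    constructor
    · intro H b hb hZ hr
      exact (conv _).1 (H b hb ((Pool.Agent.Q132.TS.ze_iff (Set.toFinite _)).2 hZ) hr)
    · intro H b hb hZ hr
      exact (conv _).2 (H b hb ((Pool.Agent.Q132.TS.ze_iff (Set.toFinite _)).1 hZ) hr)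
  · constructor
    · intro H h _ hE F hF m
      exact H M h h.continuous hE ⟨fun m => ((F m : ℝ) : ℂ), Complex.continuous_ofReal.comp hF.continuous⟩ m
    · intro H
      rw [← e1]
      apply Pool.Agent.Q132.CB.sar_of_ind hκ
      apply Pool.Agent.Q127.SD.of_manifold_diffeos (d := d) (M := M) hU hUn hκ
        (x := ⟨0, by omega⟩) (y := ⟨1, by omega⟩) (t := ⟨2, by omega⟩) (by simp) (by simp) (by simp)
      intro h hoff hE g m
      exact (conv _).2 (H h hoff hE g g.contMDiff m)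

theorem result :
    (∀ χ : ℤ → ℂ, (∃ B : ℝ, ∀ n, ‖χ n‖ ≤ B) →
      (PropertyS χ ↔ PropertySMinimal χ) ∧ (PropertyS χ ↔ PropertySStrong χ) ∧
      (∀ j : ℕ, PropertyS χ ↔ ToeplitzOrthogonal j χ) ∧
      ∀ d : ℕ, 3 ≤ d → ∀ (M : Type) [MetricSpace M] [CompactSpace M] [ChartedSpace (EuclideanSpace ℝ (Fin d)) M]
        [IsManifold (𝓡 d) ∞ M] (U : Set M), IsOpen U → U.Nonempty → (PropertyS χ ↔ PropertySFor d M U χ)) ∧
    (∀ j : ℕ, SetS = {χ | InMa χ ∧ ToeplitzOrthogonal j χ}) ∧
    ∀ d : ℕ, 3 ≤ d → ∀ (M : Type) [MetricSpace M] [CompactSpace M] [ChartedSpace (EuclideanSpace ℝ (Fin d)) M]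
      [IsManifold (𝓡 d) ∞ M] (U : Set M), IsOpen U → U.Nonempty → SetS = {χ | InMa χ ∧ PropertySFor d M U χ} := by
  refine ⟨fun χ hχ => main hχ, fun j => ?_, fun d hd M _ _ _ _ U hU hUn => ?_⟩
  · ext χ
    constructor
    · rintro ⟨h1, h2⟩
      exact ⟨h1, ((main ⟨1, h1.2.2⟩).2.2.1 j).1 h2⟩
    · rintro ⟨h1, h2⟩
      exact ⟨h1, ((main ⟨1, h1.2.2⟩).2.2.1 j).2 h2⟩
  · ext χ
    constructor
    · rintro ⟨h1, h2⟩
      exact ⟨h1, ((main ⟨1, h1.2.2⟩).2.2.2 d hd M U hU hUn).1 h2⟩
    · rintro ⟨h1, h2⟩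
      exact ⟨h1, ((main ⟨1, h1.2.2⟩).2.2.2 d hd M U hU hUn).2 h2⟩

end Pool.Agent.Results.MP_8c12e3_nt.ToeplitzOrSmoothSuffice
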